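import Pool.Agent.Helper13.PLF.Defs
import Pool.Agent.Helper90.PL.RSA

/-!
# Project PL (MP_e66f84_ag), block RSF: the set of the rational branch places over `KI K0 N ι Φ₀`
-/

set_option autoImplicit false

namespace Pool.Agent.PRL

open VC IntermediateField NumberField Pool.Agent.SC
open Pool.Agent.L (L0 MM)
open Pool.Agent.LN (Geo Act GoodCurve)
open Pool.Agent.M (Moves OverPl inL0)
open Pool.Agent.ML (HasMu BPl)
open Pool.Agent.TOW (Au AuE)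

section

variable {E U : Type} [Field E] [Field U] [Algebra E U]

/-- a place between -/
theorem overPl_between10 {L L' N : IntermediateField E U} (hLN : L' ≤ N) {b : Place E L}
    {b' : Place E L'} {Q : Place E N} (h : OverPl b Q) (h' : OverPl b' Q) : OverPl b b' :=
  fun x hx hx' => (h x hx (hLN hx')).trans (h' x hx' (hLN hx')).symm

theorem overPl_trans10 {L L' N : IntermediateField E U} (hLL : L ≤ L') {b : Place E L}
    {b' : Place E L'} {Q : Place E N} (h : OverPl b b') (h' : OverPl b' Q) : OverPl b Q :=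
  fun x hx hx' => (h x hx (hLL hx)).trans (h' x (hLL hx) hx')

/-- a place has only one place below -/
theorem overPl_unique10 {L N : IntermediateField E U} (hLN : L ≤ N) {b b' : Place E L}
    {Q : Place E N} (h : OverPl b Q) (h' : OverPl b' Q) : b = b' := by
  apply Place.ext
  ext x
  exact (h x.1 x.2 (hLN x.2)).trans (h' x.1 x.2 (hLN x.2)).symm

theorem moves_below10 {L N : IntermediateField E U} (hLN : L ≤ N) {T : U ≃+* U} {b b' : Place E L}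
    {Q Q' : Place E N} (h : OverPl b Q) (h' : OverPl b' Q') (hm : Moves T N Q Q') :
    Moves T L b b' := fun x hx hx' =>
  ((h x hx (hLN hx)).trans (hm x (hLN hx) (hLN hx'))).trans (h' (T x) hx' (hLN hx')).symm

end

/-- BLOCK RSF. -/
theorem rSF (hFIX : StmtFIX) (hKF : StmtKF) (hBRP : StmtBRP) : StmtRSF := by
  intro k K0 E U _ _ _ _ _ _ _ _ _ _ _ _ ℓ h r hℓ hℓ2 hμ geo N₁ N hN₁ hMN₁ hAb hFour hN hN₁N hPL
    b₀ Q hb₀ hQ ι hι hιQ c₀ Φ₀ hc₀ A hcomm hfixQ h' hh'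
  have hMN : MM E K0 r ≤ N := hMN₁.trans hN₁N
  obtain ⟨hK', hrest⟩ := hKF k K0 E U ℓ h r hℓ hμ geo N hN hMN ι hι c₀ Φ₀ hc₀ A hcomm
  obtain ⟨geo', hMM, hfix⟩ := hrest h' hh'
  obtain ⟨hB1, hB2⟩ := hBRP k K0 E U ℓ h r hℓ hμ geo N hN hMN (KI K0 N ι Φ₀) h' hh' hK' geo' hMM ι
    hι hfix
  have hLN : L0 E (KI K0 N ι Φ₀) (U := U) ≤ N := fun z hz => ((hfix z).1 hz).1
  have hL0L : L0 E K0 (U := U) ≤ L0 E (KI K0 N ι Φ₀) (U := U) := by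
    refine IntermediateField.adjoin_le_iff.2 ?_
    rintro _ ⟨x, rfl⟩
    exact IntermediateField.subset_adjoin _ _ ⟨⟨algebraMap K0 U x, hK' x⟩, rfl⟩
  -- the automorphisms `Φ₀ g` over `K'`
  have hAu : ∀ g : E ≃ₐ[k] E, Au E K0 (Φ₀ g) := fun g => ⟨A.fixK g, fun e => ⟨g e, A.const g e⟩⟩
  have A' : Act (K0 := KI K0 N ι Φ₀) ℓ r c₀ Φ₀ :=
    ⟨A.const, fun g x => x.2.2 (Φ₀ g) (hAu g) (Or.inr ⟨g, rfl⟩), A.tw, A.cont⟩
  have hl0 : ∀ (g : E ≃ₐ[k] E) (z : U), z ∈ L0 E K0 (U := U) → Φ₀ g z ∈ L0 E K0 (U := U) := by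
    intro g z hz
    induction hz using IntermediateField.adjoin_induction with
    | mem y hy =>
      obtain ⟨x, rfl⟩ := hy
      rw [A.fixK]
      exact IntermediateField.subset_adjoin _ _ ⟨x, rfl⟩
    | algebraMap e => rw [A.const]; exact (L0 E K0 (U := U)).algebraMap_mem _
    | add y y' _ _ h h' => rw [map_add]; exact add_mem h h'
    | inv y _ h => rw [map_inv₀]; exact inv_mem h
    | mul y y' _ _ h h' => rw [map_mul]; exact mul_mem h h'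
  have hinv : ∀ (g : E ≃ₐ[k] E) (z : U), Φ₀ g (Φ₀ g⁻¹ z) = z := by
    intro g z
    have h1 : (Φ₀ g * Φ₀ g⁻¹) z = z := by
      rw [← map_mul, mul_inv_cancel, map_one]
      rfl
    exact h1
  -- `Φ₀ g` fixes `b₀`
  have hb₀fix : ∀ g : E ≃ₐ[k] E, Moves (Φ₀ g) _ b₀ b₀ := fun g =>
    moves_below10 (hL0L.trans hLN) hQ hQ (hfixQ g)
  obtain ⟨-, hnr⟩ := ML.nR k (KI K0 N ι Φ₀) E U ℓ ℓ h' r hℓ.pos hℓ (dvd_refl _) hμ geo'
  obtain ⟨-, hord, -, -, -⟩ := hnr c₀ Φ₀ hc₀ A'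
  -- the set `S`
  obtain ⟨b₁, hb₁, hb₁Q, hb₀₁, hb₁u⟩ := hB2 b₀ Q hb₀ hQ hιQ
  obtain ⟨S, hSdef⟩ : ∃ S : Set (Place E (L0 E (KI K0 N ι Φ₀) (U := U))),
      S = {b' | BPl ℓ h' b' ∧ OverPl b₀ b'} := ⟨_, rfl⟩
  have hSm : ∀ b', b' ∈ S ↔ BPl ℓ h' b' ∧ OverPl b₀ b' := by
    intro b'
    rw [hSdef]
    rfl
  -- the bijection
  have hex : ∀ P : {Q' : Place E N // OverPl b₀ Q' ∧ Moves ι N Q' Q'}, ∃ b' : S,
      OverPl b'.1 P.1 ∧ ∀ Q₁ : Place E N, OverPl b'.1 Q₁ → Q₁ = P.1 := by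
    rintro ⟨Q', hQ', hιQ'⟩
    obtain ⟨b', hb', hb'Q, hb₀', hu⟩ := hB2 b₀ Q' hb₀ hQ' hιQ'
    exact ⟨⟨b', (hSm b').2 ⟨hb', hb₀'⟩⟩, hb'Q, hu⟩
  choose F hF hFu using hex
  have hFinj : Function.Injective F := by
    intro P P' hPP
    have h1 := hFu P P'.1 (by rw [hPP]; exact hF P')
    exact Subtype.ext h1.symm
  have hFsurj : Function.Surjective F := by
    rintro ⟨b', hb'⟩
    obtain ⟨hbp, hov⟩ := (hSm b').1 hb'
    obtain ⟨-, Q', hQ', hιQ', -⟩ := hB1 b' hbp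
    refine ⟨⟨Q', overPl_trans10 hL0L hov hQ', hιQ'⟩, Subtype.ext ?_⟩
    exact overPl_unique10 hLN (hF ⟨Q', overPl_trans10 hL0L hov hQ', hιQ'⟩) hQ'
  have hcard : Nat.card {Q' : Place E N // OverPl b₀ Q' ∧ Moves ι N Q' Q'} = Nat.card S :=
    Nat.card_congr (Equiv.ofBijective F ⟨hFinj, hFsurj⟩)
  obtain ⟨hdvd, h4⟩ := hFIX k K0 E U ℓ h r hℓ hμ geo N₁ N hN₁ hMN₁ hAb hFour hN hN₁N hPL b₀ Q hb₀ hQ
    ι hι hιQ
  rw [hcard] at hdvd h4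
  refine PL90.rs_core hℓ hℓ2 hμ geo' S (fun b hb => ((hSm b).1 hb).1) hdvd h4
    (b₁ := b₁) ((hSm b₁).2 ⟨hb₁, hb₀₁⟩) hc₀ A'
    (fun g => moves_below10 hLN hb₁Q hb₁Q (hfixQ g)) ?_
  intro g b b' hb hbb
  obtain ⟨hbp, hov⟩ := (hSm b).1 hb
  refine (hSm b').2 ⟨?_, ?_⟩
  · intro hd
    apply hbp
    rw [hord g b b' hbb]
    exact hd
  · intro x hx hx'
    -- `x = Φ₀ g y`
    have hy : Φ₀ g⁻¹ x ∈ L0 E K0 (U := U) := hl0 g⁻¹ x hx
    have h1 := hb₀fix g (Φ₀ g⁻¹ x) hy (by rw [hinv]; exact hx)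
    have h2 := hbb (Φ₀ g⁻¹ x) (hL0L hy) (by rw [hinv]; exact hx')
    have h3 := hov (Φ₀ g⁻¹ x) hy (hL0L hy)
    have e1 : ∀ (M : IntermediateField E U) (h5 : Φ₀ g (Φ₀ g⁻¹ x) ∈ M) (h6 : x ∈ M),
        (⟨Φ₀ g (Φ₀ g⁻¹ x), h5⟩ : M) = ⟨x, h6⟩ := fun M h5 h6 => Subtype.ext (hinv g x)
    rw [e1 _ _ hx] at h1
    rw [e1 _ _ hx'] at h2
    exact (h1.symm.trans h3).trans h2

end Pool.Agent.PRL
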